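import Pool.Agent.J6H4.DC.Fin

/-!
A countable group with countably many subgroups, no proper subgroup of which maps onto it, and with
a cocycle superrigid action all of whose nontrivial normal subgroups act ergodically is not
dynamically compressible.
-/

set_option autoImplicit false

namespace Pool.Agent.Results.MP_45e9b0_lc.SuperrigidActions

open MeasureTheory Pool.Agent.J6H4.DC

theorem result (G : Type) [Group G] [Countable G] [Infinite G]
    -- `G` has only countably many subgroups, and no proper subgroup of `G` maps onto `G`
    (hsub : Countable (Subgroup G))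
    (hsec : ∀ K : Subgroup G, K ≠ ⊤ → ∀ ψ : K →* G, ¬ Function.Surjective ψ)
    -- a measure-preserving Borel action on an atomless standard probability space
    (X : Type) [MeasurableSpace X] [StandardBorelSpace X] [MulAction G X]
    (hX : ∀ g : G, Measurable (fun x : X => g • x))
    (μ : Measure X) (hprob : μ Set.univ = 1) (hat : ∀ x : X, μ {x} = 0)
    (hinv : ∀ (g : G) (s : Set X), MeasurableSet s → μ ((fun x : X => g • x) ⁻¹' s) = μ s)
    -- nontrivial normal subgroups act ergodically
    (herg : ∀ N : Subgroup G, N.Normal → N ≠ ⊥ → ∀ s : Set X, MeasurableSet s →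
      (∀ g ∈ N, (fun x : X => g • x) ⁻¹' s = s) → μ s = 0 ∨ μ sᶜ = 0)
    (hcs : CocycleSuperrigid G X μ) :
    ¬ DynamicallyCompressible G := by
  have h1 : IsProbabilityMeasure μ := ⟨hprob⟩
  have h2 : NullSingletonClass μ := ⟨hat⟩
  have hN : ∀ N : Subgroup G, N.Normal → N ≠ ⊥ → ErgodicSMul N X μ := by
    intro N hN hN1
    refine ergodic_of (N := N) (fun g => hX (g : G)) (fun g s hs => hinv (g : G) s hs)
      fun s hs h => ?_
    exact herg N hN hN1 s hs fun g hg => h ⟨g, hg⟩
  have h3 : ErgodicSMul G X μ := by
    refine ergodic_of hX hinv fun s hs h => ?_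
    exact herg ⊤ inferInstance top_ne_bot s hs fun g _ => h g
  exact not_dynamicallyCompressible hsec hX hN hcs

end Pool.Agent.Results.MP_45e9b0_lc.SuperrigidActions
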